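import Pool.Agent.Q53.LC.Base

/-!
# Project LC (helper292), job KIL: the killed evolution loses little mass
-/

set_option autoImplicit false

namespace Pool.Agent.Q53.LC

open Finset Equiv Matrix Q292.LC

section gen

variable {V : Type} [DecidableEq V] [Fintype V]

lemma Mx_nonneg (e : ℕ → V × V) (ω : ℕ → Bool) (A : Finset V) (δ : ℝ) (h0 : 0 ≤ δ) (h1 : δ ≤ 1)
    (k : ℕ) (x y : V) : 0 ≤ Mx e ω A δ k x y := by
  have hpm : ∀ (s : Perm V), 0 ≤ pm s x y := by
    intro s
    change (0 : ℝ) ≤ if s x = y then 1 else 0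
    split_ifs <;> norm_num
  have h1' : 0 ≤ (1 : Matrix V V ℝ) x y := by
    rw [Matrix.one_apply]
    split_ifs <;> norm_num
  unfold Mx
  split_ifs with h2 h3
  · exact hpm _
  · exact h1'
  · unfold fr
    rw [Matrix.add_apply, Matrix.smul_apply, Matrix.smul_apply, smul_eq_mul, smul_eq_mul]
    exact add_nonneg (mul_nonneg (by linarith) h1') (mul_nonneg h0 (hpm _))

lemma vecMul_nonneg (M : Matrix V V ℝ) (g : V → ℝ) (hM : ∀ x y, 0 ≤ M x y) (hg : ∀ x, 0 ≤ g x)
    (y : V) : 0 ≤ vecMul g M y :=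
  Finset.sum_nonneg fun x _ => mul_nonneg (hg x) (hM x y)

lemma vecMul_mono (M : Matrix V V ℝ) (g h : V → ℝ) (hM : ∀ x y, 0 ≤ M x y) (hg : ∀ x, g x ≤ h x)
    (y : V) : vecMul g M y ≤ vecMul h M y :=
  Finset.sum_le_sum fun x _ => mul_le_mul_of_nonneg_right (hg x) (hM x y)

variable (e : ℕ → V × V) (ω : ℕ → Bool) (A : Finset V) (δ : ℝ) (B : Finset V)

lemma kv_nonneg (h0 : 0 ≤ δ) (h1 : δ ≤ 1) (g : V → ℝ) (hg : ∀ x, 0 ≤ g x) (n : ℕ) (y : V) :
    0 ≤ kv e ω A δ B g n y := by
  induction n generalizing y with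
  | zero => exact hg y
  | succ n ih =>
    change (0 : ℝ) ≤ if y ∈ B then _ else _
    split_ifs
    · exact vecMul_nonneg _ _ (Mx_nonneg e ω A δ h0 h1 n) ih y
    · exact le_rfl

lemma kv_le_TT (h0 : 0 ≤ δ) (h1 : δ ≤ 1) (z : V) (n : ℕ) (y : V) :
    kv e ω A δ B (Pi.single z 1) n y ≤ TT e ω A δ n z y ∧ 0 ≤ TT e ω A δ n z y := by
  induction n generalizing y with
  | zero =>
    change (Pi.single z (1 : ℝ) : V → ℝ) y ≤ (1 : Matrix V V ℝ) z y ∧ 0 ≤ (1 : Matrix V V ℝ) z y
    rw [Matrix.one_apply, Pi.single_apply]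
    refine ⟨?_, by split_ifs <;> norm_num⟩
    by_cases h : y = z
    · rw [if_pos h, if_pos h.symm]
    · rw [if_neg h, if_neg (Ne.symm h)]
  | succ n ih =>
    have h2 : TT e ω A δ (n + 1) z y = vecMul (TT e ω A δ n z) (Mx e ω A δ n) y := rfl
    have h3 : 0 ≤ TT e ω A δ (n + 1) z y := by
      rw [h2]
      exact vecMul_nonneg _ _ (Mx_nonneg e ω A δ h0 h1 n) (fun x => (ih x).2) y
    refine ⟨?_, h3⟩
    change (if y ∈ B then _ else _) ≤ _
    split_ifs
    · rw [h2]
      exact vecMul_mono _ _ _ (Mx_nonneg e ω A δ h0 h1 n) (fun x => (ih x).1) y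
    · exact h3

end gen

/-- a touched moving step which meets the ball -/
def Bad {V : Type} [DecidableEq V] (e : ℕ → V × V) (ω : ℕ → Bool) (A B : Finset V) (k : ℕ) : Prop :=
  ω k = true ∧ tch e ω A k ∧ ((e k).1 ∈ B ∨ (e k).2 ∈ B)

instance {V : Type} [DecidableEq V] (e : ℕ → V × V) (ω : ℕ → Bool) (A B : Finset V) (k : ℕ) :
    Decidable (Bad e ω A B k) := by
  unfold Bad
  infer_instance

/-- the abstract supermartingale -/
lemma superm {V : Type} [DecidableEq V] [Fintype V] (e : ℕ → V × V) (ω : ℕ → Bool) (A B : Finset V)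
    (δ : ℝ) (h0 : 0 ≤ δ) (h1 : δ ≤ 1) (z : V) (hz : z ∈ B) (N : ℕ) (Φ : ℕ → V → ℝ) (lam D a : ℝ)
    (ha : 1 ≤ a) (hD : 1 ≤ D) (hda : (1 - δ) / a + δ * D ≤ 1) (hlam : 0 ≤ lam)
    (hΦ0 : ∀ k y, 0 ≤ Φ k y) (hmono : ∀ k y, Φ (k + 1) y ≤ Φ k y)
    (hend : ∀ k < N, Φ (k + 1) (e k).1 ≤ Φ k (e k).1 / a ∧ Φ (k + 1) (e k).2 ≤ Φ k (e k).2 / a)
    (hmov : ∀ k < N, Φ (k + 1) (e k).2 ≤ D * Φ k (e k).1 ∧ Φ (k + 1) (e k).1 ≤ D * Φ k (e k).2)
    (hout : ∀ k ≤ N, ∀ y, y ∉ B → lam ≤ Φ k y) (hz0 : Φ 0 z ≤ 1) :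
    lam * (1 - ∑ y, kv e ω A δ B (Pi.single z 1) N y) ≤
      D ^ ((Finset.range N).filter fun k => Bad e ω A B k).card := by
  obtain ⟨G, hG⟩ : ∃ G : ℕ → V → ℝ, G = kv e ω A δ B (Pi.single z 1) := ⟨_, rfl⟩
  have hG0 : ∀ n y, 0 ≤ G n y := by
    intro n y
    rw [hG]
    apply kv_nonneg e ω A δ B h0 h1
    intro x
    rw [Pi.single_apply]
    split_ifs <;> norm_num
  have hGB : ∀ n y, y ∉ B → G n y = 0 := by
    intro n y hy
    rw [hG]
    cases n with
    | zero =>
      change (Pi.single z (1 : ℝ) : V → ℝ) y = 0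
      rw [Pi.single_apply, if_neg]
      rintro rfl
      exact hy hz
    | succ n =>
      change (if y ∈ B then _ else _) = _
      rw [if_neg hy]
  obtain ⟨h, hh⟩ : ∃ h : ℕ → V → ℝ, ∀ n, h n = vecMul (G n) (Mx e ω A δ n) := ⟨_, fun _ => rfl⟩
  have hh0 : ∀ n y, 0 ≤ h n y := by
    intro n y
    rw [hh]
    exact vecMul_nonneg _ _ (Mx_nonneg e ω A δ h0 h1 n) (hG0 n) y
  have hGs : ∀ n y, G (n + 1) y = if y ∈ B then h n y else 0 := by
    intro n y
    rw [hh, hG]
    rfl
  have hsum : ∀ n, ∑ y, h n y = ∑ y, G n y := by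
    intro n
    rw [hh]
    exact sum_Mx e ω A δ n (G n)
  have hle1 : ∀ n, ∑ y, G n y ≤ 1 := by
    intro n
    induction n with
    | zero =>
      rw [hG]
      change ∑ y, (Pi.single z (1 : ℝ) : V → ℝ) y ≤ 1
      rw [Finset.sum_pi_single']
      simp
    | succ n ih =>
      rw [← hsum] at ih
      refine le_trans (Finset.sum_le_sum fun y _ => ?_) ih
      rw [hGs]
      split_ifs
      · exact le_rfl
      · exact hh0 n y
  -- the action on the potential
  have hact : ∀ k < N, ∑ y, h k y * Φ (k + 1) y ≤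
      (if Bad e ω A B k then D else 1) * ∑ y, G k y * Φ k y := by
    intro k hk
    obtain ⟨m1, m2⟩ := hmov k hk
    obtain ⟨n1, n2⟩ := hend k hk
    have hs : ∑ y, G k (swap (e k).1 (e k).2 y) * Φ (k + 1) y =
        ∑ y, G k y * Φ (k + 1) (swap (e k).1 (e k).2 y) := by
      have h2 := sum_swap (e k).1 (e k).2 (fun y => G k (swap (e k).1 (e k).2 y) * Φ (k + 1) y)
      simp only [swap_apply_self] at h2
      exact h2.symm
    simp only [hh, vecMul_Mx]
    by_cases h2 : tch e ω A k
    · simp only [if_pos h2]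
      by_cases h3 : ω k = true
      · simp only [if_pos h3]
        rw [hs]
        split_ifs with h4
        · rw [Finset.mul_sum]
          refine Finset.sum_le_sum fun y _ => ?_
          have h5 : Φ (k + 1) (swap (e k).1 (e k).2 y) ≤ D * Φ k y := by
            by_cases h6 : y = (e k).1
            · rw [h6, swap_apply_left]
              exact m1
            · by_cases h7 : y = (e k).2
              · rw [h7, swap_apply_right]
                exact m2
              · rw [swap_apply_of_ne_of_ne h6 h7]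
                have := hmono k y
                have := hΦ0 k y
                nlinarith
          have := mul_le_mul_of_nonneg_left h5 (hG0 k y)
          linarith
        · rw [one_mul]
          have h5 : (e k).1 ∉ B ∧ (e k).2 ∉ B := by
            by_contra h6
            apply h4
            refine ⟨h3, h2, ?_⟩
            by_contra h7
            rw [not_or] at h7
            exact h6 h7
          refine Finset.sum_le_sum fun y _ => ?_
          by_cases h6 : y = (e k).1
          · rw [h6, hGB k _ h5.1]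
            simp
          · by_cases h7 : y = (e k).2
            · rw [h7, hGB k _ h5.2]
              simp
            · rw [swap_apply_of_ne_of_ne h6 h7]
              exact mul_le_mul_of_nonneg_left (hmono k y) (hG0 k y)
      · simp only [if_neg h3]
        rw [if_neg (fun h4 : Bad e ω A B k => h3 h4.1), one_mul]
        exact Finset.sum_le_sum fun y _ => mul_le_mul_of_nonneg_left (hmono k y) (hG0 k y)
    · simp only [if_neg h2]
      rw [if_neg (fun h4 : Bad e ω A B k => h2 h4.2.1), one_mul]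
      have h3 : ∑ y, ((1 - δ) * G k y + δ * G k (swap (e k).1 (e k).2 y)) * Φ (k + 1) y =
          ∑ y, G k y * ((1 - δ) * Φ (k + 1) y + δ * Φ (k + 1) (swap (e k).1 (e k).2 y)) := by
        have h4 : ∀ y, ((1 - δ) * G k y + δ * G k (swap (e k).1 (e k).2 y)) * Φ (k + 1) y =
            (1 - δ) * (G k y * Φ (k + 1) y) +
            δ * (G k (swap (e k).1 (e k).2 y) * Φ (k + 1) y) := fun y => by ring
        have h5 : ∀ y, G k y * ((1 - δ) * Φ (k + 1) y + δ * Φ (k + 1) (swap (e k).1 (e k).2 y)) =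
            (1 - δ) * (G k y * Φ (k + 1) y) +
            δ * (G k y * Φ (k + 1) (swap (e k).1 (e k).2 y)) := fun y => by ring
        simp only [h4, h5]
        rw [Finset.sum_add_distrib, Finset.sum_add_distrib, ← Finset.mul_sum, ← Finset.mul_sum,
          ← Finset.mul_sum, hs]
      rw [h3]
      refine Finset.sum_le_sum fun y _ => mul_le_mul_of_nonneg_left ?_ (hG0 k y)
      have h1' : 0 ≤ 1 - δ := by linarith
      have hkey : ∀ x x' : V, Φ (k + 1) x ≤ Φ k x / a → Φ (k + 1) x' ≤ D * Φ k x →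
          (1 - δ) * Φ (k + 1) x + δ * Φ (k + 1) x' ≤ Φ k x := by
        intro x x' i1 i2
        have i3 := mul_le_mul_of_nonneg_left i1 h1'
        have i4 := mul_le_mul_of_nonneg_left i2 h0
        have i5 := mul_le_mul_of_nonneg_right hda (hΦ0 k x)
        have i6 : ((1 - δ) / a + δ * D) * Φ k x = (1 - δ) * (Φ k x / a) + δ * (D * Φ k x) := by
          ring
        linarith
      by_cases h6 : y = (e k).1
      · rw [h6, swap_apply_left]
        exact hkey _ _ n1 m1
      · by_cases h7 : y = (e k).2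
        · rw [h7, swap_apply_right]
          exact hkey _ _ n2 m2
        · rw [swap_apply_of_ne_of_ne h6 h7]
          have := hmono k y
          linarith
  have hW : ∀ n ≤ N, ∑ y, G n y * Φ n y + lam * (1 - ∑ y, G n y) ≤
      D ^ ((Finset.range n).filter fun k => Bad e ω A B k).card := by
    intro n
    induction n with
    | zero =>
      intro _
      have h2 : ∀ y, G 0 y = (Pi.single z (1 : ℝ) : V → ℝ) y := fun y => by rw [hG]; rfl
      have h3 : ∑ y, G 0 y = 1 := by
        simp only [h2]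
        rw [Finset.sum_pi_single']
        simp
      have h4 : ∑ y, G 0 y * Φ 0 y = Φ 0 z := by
        simp only [h2, Pi.single_apply]
        simp
      rw [h3, h4]
      simpa using hz0
    | succ n ih =>
      intro hn
      have i1 := ih (by omega)
      have i2 := hact n (by omega)
      have i3 : ∑ y, G (n + 1) y * Φ (n + 1) y + lam * (1 - ∑ y, G (n + 1) y) ≤
          ∑ y, h n y * Φ (n + 1) y + lam * (1 - ∑ y, h n y) := by
        have i4 : ∑ y, (G (n + 1) y * Φ (n + 1) y - lam * G (n + 1) y) ≤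
            ∑ y, (h n y * Φ (n + 1) y - lam * h n y) := by
          refine Finset.sum_le_sum fun y _ => ?_
          rw [hGs]
          split_ifs with h5
          · exact le_rfl
          · have h6 := hout (n + 1) hn y h5
            have h7 := hh0 n y
            nlinarith
        rw [Finset.sum_sub_distrib, Finset.sum_sub_distrib, ← Finset.mul_sum,
          ← Finset.mul_sum] at i4
        linarith
      rw [hsum n] at i3
      have i5 : 0 ≤ lam * (1 - ∑ y, G n y) := mul_nonneg hlam (by linarith [hle1 n])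
      have i6 : ∑ y, h n y * Φ (n + 1) y + lam * (1 - ∑ y, G n y) ≤
          (if Bad e ω A B n then D else 1) *
          (∑ y, G n y * Φ n y + lam * (1 - ∑ y, G n y)) := by
        have i7 : (1 : ℝ) ≤ if Bad e ω A B n then D else 1 := by
          split_ifs
          · exact hD
          · exact le_rfl
        rw [mul_add]
        have i8 := mul_le_mul_of_nonneg_right i7 i5
        linarith
      refine (i3.trans i6).trans ?_
      rw [Finset.range_add_one, Finset.filter_insert]
      split_ifs with h5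
      · rw [Finset.card_insert_of_notMem (by simp), pow_succ, mul_comm]
        exact mul_le_mul_of_nonneg_right i1 (by linarith)
      · rw [one_mul]
        exact i1
  have i1 := hW N le_rfl
  have i2 : 0 ≤ ∑ y, G N y * Φ N y :=
    Finset.sum_nonneg fun y _ => mul_nonneg (hG0 N y) (hΦ0 N y)
  rw [hG] at i1 i2
  linarith

/-- number of edges at a point before step `k` -/
noncomputable def ct {V : Type} [DecidableEq V] (e : ℕ → V × V) (k : ℕ) (y : V) : ℝ :=
  ∑ j ∈ Finset.range k, inc (e j) y

lemma ct_mono {V : Type} [DecidableEq V] (e : ℕ → V × V) {k k' : ℕ} (h : k ≤ k') (y : V) :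
    ct e k y ≤ ct e k' y :=
  Finset.sum_le_sum_of_subset_of_nonneg (Finset.range_mono h) fun j _ _ => by
    unfold inc
    split_ifs <;> norm_num

lemma ct_sweep {d L : ℕ} [NeZero L] {σ : ℕ → (Fin d → ZMod L) × Fin d} (hσ : Per σ) (s : ℕ)
    (y : Fin d → ZMod L) : ct (ed ∘ σ) (s * ms d L) y = 2 * d * s := by
  induction s with
  | zero => simp [ct]
  | succ s ih =>
    unfold ct at ih ⊢
    rw [Nat.succ_mul, Finset.sum_range_add, ih]
    have h1 : ∀ j, σ (s * ms d L + j) = σ j := by
      intro j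
      clear ih
      induction s with
      | zero => simp
      | succ s ih =>
        have h2 : (s + 1) * ms d L + j = (s * ms d L + j) + ms d L := by ring
        rw [h2, hσ.1, ih]
    have h2 : ∑ x ∈ Finset.range (ms d L), inc ((ed ∘ σ) (s * ms d L + x)) y =
        ∑ x ∈ Finset.range (ms d L), inc (ed (σ x)) y := by
      refine Finset.sum_congr rfl fun x _ => ?_
      rw [Function.comp_apply, h1]
    rw [h2, sum_deg_sweep hσ]
    push_cast
    ring

lemma ms_pos {d L : ℕ} [NeZero L] (hd : 1 ≤ d) : 0 < ms d L := by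
  unfold ms
  exact Nat.mul_pos (pow_pos (Nat.pos_of_ne_zero (NeZero.ne L)) d) hd

/-- the counts at two points differ by at most `2 d` -/
lemma ct_diff {d L : ℕ} [NeZero L] (hd : 1 ≤ d) {σ : ℕ → (Fin d → ZMod L) × Fin d} (hσ : Per σ)
    (k : ℕ) (x y : Fin d → ZMod L) : ct (ed ∘ σ) k x ≤ ct (ed ∘ σ) k y + 2 * d := by
  obtain ⟨s, hs⟩ : ∃ s, s = k / ms d L := ⟨_, rfl⟩
  have hm := ms_pos (d := d) (L := L) hd
  have h1 : s * ms d L ≤ k := by
    rw [hs]
    exact Nat.div_mul_le_self k _
  have h2 : k ≤ (s + 1) * ms d L := by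
    rw [hs]
    have h3 := Nat.div_add_mod k (ms d L)
    have h4 := Nat.mod_lt k hm
    have h5 : (k / ms d L + 1) * ms d L = ms d L * (k / ms d L) + ms d L := by ring
    omega
  have h3 := ct_mono (ed ∘ σ) h2 x
  have h4 := ct_mono (ed ∘ σ) h1 y
  rw [ct_sweep hσ] at h3 h4
  push_cast at h3
  linarith

theorem kil : S_KIL := by
  intro d hd
  have hd' : (1 : ℝ) ≤ d := by exact_mod_cast hd
  refine ⟨12 * (2 * d + 1), by linarith, ?_⟩
  intro L _ hL σ hσ ω A δ q u R z hδ hCδ hδq
  obtain ⟨e, he⟩ : ∃ e : ℕ → (Fin d → ZMod L) × (Fin d → ZMod L), e = ed ∘ σ := ⟨_, rfl⟩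
  have hek : ∀ k, e k = ed (σ k) := fun k => by rw [he]; rfl
  have hδ1 : δ ≤ 1 / 36 := by nlinarith
  obtain ⟨n, hn⟩ : ∃ n, n = u * (q * ms d L) := ⟨_, rfl⟩
  have hzB : z ∈ bal z R := by
    unfold bal
    rw [Finset.mem_filter]
    exact ⟨Finset.mem_univ _, by rw [td_self]; exact Nat.zero_le _⟩
  simp only [← hek, ← he, ← hn]
  refine ⟨fun y => ⟨kv_nonneg e ω A δ _ hδ.le (by linarith) _ (fun x => ?_) n y,
    (kv_le_TT e ω A δ _ hδ.le (by linarith) z n y).1, fun hy => ?_⟩, ?_⟩
  · rw [Pi.single_apply]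
    split_ifs <;> norm_num
  · by_contra h
    apply hy
    have h2 : y ∉ bal z R := by
      unfold bal
      rw [Finset.mem_filter]
      exact fun h3 => h h3.2
    cases n with
    | zero =>
      change (Pi.single z (1 : ℝ) : (Fin d → ZMod L) → ℝ) y = 0
      rw [Pi.single_apply, if_neg]
      rintro rfl
      exact h2 hzB
    | succ n =>
      change (if y ∈ bal z R then _ else _) = _
      rw [if_neg h2]
  obtain ⟨a, ha⟩ : ∃ a : ℝ, a = 1 + 6 * δ := ⟨_, rfl⟩
  have ha1 : 1 ≤ a := by rw [ha]; linarith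
  have ha0 : 0 < a := by linarith
  have hae : a ≤ Real.exp (6 * δ) := by
    rw [ha, add_comm]
    exact Real.add_one_le_exp _
  have hap : ∀ t : ℝ, 0 ≤ t → a ^ t ≤ Real.exp (6 * δ * t) := by
    intro t ht
    rw [Real.exp_mul]
    exact Real.rpow_le_rpow ha0.le hae ht
  have he3 : Real.exp 1 ≤ 3 := by
    have := Real.exp_one_lt_d9
    linarith
  have hexph : Real.exp (1 / 2) ≤ 2 := by
    have h1 : Real.exp (1 / 2) * Real.exp (1 / 2) = Real.exp 1 := by
      rw [← Real.exp_add]
      norm_num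
    have h2 := Real.exp_pos (1 / 2)
    nlinarith
  have ha2 : a ^ (2 * d + 1 : ℝ) ≤ 2 := by
    refine (hap _ (by linarith)).trans (le_trans (Real.exp_le_exp.2 ?_) hexph)
    nlinarith
  have ha2' : a ^ (2 * d : ℝ) ≤ 2 :=
    le_trans (Real.rpow_le_rpow_of_exponent_le ha1 (by linarith)) ha2
  obtain ⟨D, hD⟩ : ∃ D : ℝ, D = Real.exp 1 * a ^ (2 * d : ℝ) := ⟨_, rfl⟩
  have hae1 : 1 ≤ Real.exp 1 := Real.one_le_exp (by norm_num)
  have hapos : 0 < a ^ (2 * d : ℝ) := Real.rpow_pos_of_pos ha0 _
  have ha2d : 1 ≤ a ^ (2 * d : ℝ) := Real.one_le_rpow ha1 (by linarith)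
  have hD1 : 1 ≤ D := by
    rw [hD]
    nlinarith
  have hDe : D ≤ Real.exp 2 := by
    have h1 : Real.exp 2 = Real.exp 1 * Real.exp 1 := by
      rw [← Real.exp_add]
      norm_num
    rw [hD, h1]
    apply mul_le_mul_of_nonneg_left _ (by linarith)
    have := Real.exp_one_gt_d9
    linarith
  have hda : (1 - δ) / a + δ * D ≤ 1 := by
    have h1 : a * a ^ (2 * d : ℝ) ≤ 2 := by
      rw [Real.rpow_add ha0, Real.rpow_one] at ha2
      linarith
    have h2 : (1 - δ) / a + δ * D = (1 - δ + δ * Real.exp 1 * (a * a ^ (2 * d : ℝ))) / a := by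
      rw [hD]
      field_simp
    rw [h2, div_le_one ha0]
    have h3 : δ * Real.exp 1 * (a * a ^ (2 * d : ℝ)) ≤ δ * 3 * 2 := by
      apply mul_le_mul _ h1 (by positivity) (by positivity)
      exact mul_le_mul_of_nonneg_left he3 hδ.le
    linarith
  have key := superm e ω A (bal z R) δ hδ.le (by linarith) z hzB n
    (fun k y => Real.exp (td z y) * a ^ (-(ct e k y)))
    (Real.exp (R + 1) * a ^ (-(2 * d * (u * q) : ℝ))) D a ha1 hD1 hda (by positivity)
    (fun k y => by positivity) (fun k y => by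
      apply mul_le_mul_of_nonneg_left _ (Real.exp_pos _).le
      apply Real.rpow_le_rpow_of_exponent_le ha1
      have := ct_mono e (Nat.le_succ k) y
      linarith) (fun k _ => by
      have hs : ∀ y, ct e (k + 1) y = ct e k y + inc (e k) y := fun y => by
        unfold ct
        rw [Finset.sum_range_succ]
      have hh : ∀ y, 1 ≤ inc (e k) y → Real.exp (td z y) * a ^ (-(ct e (k + 1) y)) ≤
          Real.exp (td z y) * a ^ (-(ct e k y)) / a := by
        intro y hy
        rw [mul_div_assoc]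
        apply mul_le_mul_of_nonneg_left _ (Real.exp_pos _).le
        have h1 : a ^ (-(ct e k y)) / a = a ^ (-(ct e k y) - 1) := by
          rw [Real.rpow_sub ha0, Real.rpow_one]
        rw [h1]
        apply Real.rpow_le_rpow_of_exponent_le ha1
        rw [hs]
        linarith
      constructor
      · apply hh
        unfold inc
        rw [if_pos rfl]
        split_ifs <;> norm_num
      · apply hh
        unfold inc
        rw [if_pos (rfl : (e k).2 = (e k).2)]
        split_ifs <;> norm_num) (fun k _ => by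
      have hh : ∀ x y, td z y ≤ td z x + 1 → Real.exp (td z y) * a ^ (-(ct e (k + 1) y)) ≤
          D * (Real.exp (td z x) * a ^ (-(ct e k x))) := by
        intro x y hxy
        have h1 : D * (Real.exp (td z x) * a ^ (-(ct e k x))) =
            Real.exp (td z x + 1) * a ^ (2 * d + -(ct e k x)) := by
          rw [hD, Real.exp_add, Real.rpow_add ha0]
          ring
        rw [h1]
        apply mul_le_mul
        · apply Real.exp_le_exp.2
          exact_mod_cast hxy
        · apply Real.rpow_le_rpow_of_exponent_le ha1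
          have h2 := ct_diff hd hσ k x y
          have h3 := ct_mono e (Nat.le_succ k) y
          rw [← he] at h2
          linarith
        · positivity
        · positivity
      obtain ⟨h1, h2⟩ := td_step hL z (σ k).1 (σ k).2
      rw [hek]
      exact ⟨hh _ _ h1, hh _ _ h2⟩) (fun k hk y hy => by
      apply mul_le_mul
      · apply Real.exp_le_exp.2
        have h1 : R + 1 ≤ td z y := by
          unfold bal at hy
          rw [Finset.mem_filter] at hy
          by_contra h2
          exact hy ⟨Finset.mem_univ _, by omega⟩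
        exact_mod_cast h1
      · apply Real.rpow_le_rpow_of_exponent_le ha1
        have h1 := ct_mono e hk y
        have h2 : ct e n y = 2 * d * (u * q) := by
          rw [hn, ← mul_assoc, he, ct_sweep hσ]
          push_cast
          ring
        linarith
      · positivity
      · positivity) (by
      simp [ct, td_self])
  have hbad : ((Finset.range n).filter fun k => Bad e ω A (bal z R) k).card =
      ((Finset.range n).filter fun k => ω k = true ∧ tch e ω A k ∧
        ((e k).1 ∈ bal z R ∨ (e k).2 ∈ bal z R)).card := by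
    congr 1
  rw [← hbad]
  obtain ⟨N, hN⟩ : ∃ N, N = ((Finset.range n).filter fun k => Bad e ω A (bal z R) k).card :=
    ⟨_, rfl⟩
  rw [← hN] at key ⊢
  have hlampos : 0 < Real.exp (R + 1) * a ^ (-(2 * d * (u * q) : ℝ)) := by positivity
  have h1 : 1 - ∑ y, kv e ω A δ (bal z R) (Pi.single z 1) n y ≤
      D ^ N / (Real.exp (R + 1) * a ^ (-(2 * d * (u * q) : ℝ))) := by
    rw [le_div_iff₀ hlampos, mul_comm]
    exact key
  refine h1.trans ?_
  have h2 : D ^ N ≤ Real.exp (2 * N) := by
    have h3 : D ^ N ≤ (Real.exp 2) ^ N := pow_le_pow_left₀ (by linarith) hDe N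
    rw [← Real.exp_nat_mul] at h3
    rw [mul_comm (2 : ℝ)]
    exact h3
  have h3 : a ^ (2 * d * (u * q) : ℝ) ≤ Real.exp (24 * d * u) := by
    refine (hap _ (by positivity)).trans (Real.exp_le_exp.2 ?_)
    have h4 : 6 * δ * (2 * d * (u * q)) = 12 * d * u * (δ * q) := by ring
    rw [h4]
    have h5 : (0 : ℝ) ≤ 12 * d * u := by positivity
    nlinarith
  rw [Real.rpow_neg ha0.le, div_mul_eq_div_div, div_inv_eq_mul]
  have h4 : D ^ N / Real.exp (R + 1) * a ^ (2 * d * (u * q) : ℝ) ≤
      Real.exp (2 * N) / Real.exp (R + 1) * Real.exp (24 * d * u) := by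
    apply mul_le_mul
    · exact div_le_div_of_nonneg_right h2 (Real.exp_pos _).le
    · exact h3
    · positivity
    · positivity
  refine h4.trans ?_
  rw [← Real.exp_sub, ← Real.exp_add]
  apply Real.exp_le_exp.2
  have h5 : (0 : ℝ) ≤ u := Nat.cast_nonneg _
  have h6 : (0 : ℝ) ≤ N := Nat.cast_nonneg _
  nlinarith

end Pool.Agent.Q53.LC
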