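import Pool.Agent.Q53.LC.Base

/-!
# Project LC (helper292), job SWD: decrease of the square norm in one sweep
-/

set_option autoImplicit false

namespace Pool.Agent.Q53.LC

open Finset Equiv Matrix Q292.LC

section gen

variable {V : Type} [DecidableEq V] [Fintype V]

lemma sum_diff_sq (g : V → ℝ) (a b : V) :
    ∑ y, (g y - g (swap a b y)) ^ 2 = 2 * (g a - g b) ^ 2 := by
  by_cases hab : a = b
  · subst hab
    simp
  · rw [Finset.sum_eq_add a b hab]
    · rw [swap_apply_left, swap_apply_right]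
      ring
    · intro c _ hc
      rw [swap_apply_of_ne_of_ne hc.1 hc.2, sub_self]
      norm_num
    · intro h
      exact absurd (Finset.mem_univ _) h
    · intro h
      exact absurd (Finset.mem_univ _) h

lemma sq_free (g : V → ℝ) (a b : V) (δ : ℝ) :
    ∑ y, ((1 - δ) * g y + δ * g (swap a b y)) ^ 2 + 2 * δ * (1 - δ) * (g a - g b) ^ 2 =
      ∑ y, (g y) ^ 2 := by
  have h1 : ∀ y, ((1 - δ) * g y + δ * g (swap a b y)) ^ 2 = (1 - δ) * (g y) ^ 2 +
      δ * (g (swap a b y)) ^ 2 - δ * (1 - δ) * (g y - g (swap a b y)) ^ 2 := fun y => by ring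
  simp only [h1]
  rw [Finset.sum_sub_distrib, Finset.sum_add_distrib, ← Finset.mul_sum, ← Finset.mul_sum,
    ← Finset.mul_sum, sum_diff_sq, sum_swap a b (fun y => (g y) ^ 2)]
  ring

variable (e : ℕ → V × V) (ω : ℕ → Bool) (A : Finset V) (δ : ℝ) (B : Finset V) (g : V → ℝ)

/-- variation in step `k` -/
noncomputable def wv (k : ℕ) : ℝ :=
  if tch e ω A k then 0 else |kv e ω A δ B g k (e k).1 - kv e ω A δ B g k (e k).2|

lemma wv_nonneg (k : ℕ) : 0 ≤ wv e ω A δ B g k := by
  unfold wv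
  split_ifs
  · exact le_rfl
  · exact abs_nonneg _

lemma kv_out (hg : ∀ y, y ∉ B → g y = 0) (n : ℕ) (y : V) (hy : y ∉ B) : kv e ω A δ B g n y = 0 := by
  cases n with
  | zero => exact hg y hy
  | succ n =>
    unfold kv
    rw [if_neg hy]

lemma kv_succ_in (n : ℕ) (y : V) (hy : y ∈ B) : kv e ω A δ B g (n + 1) y =
    vecMul (kv e ω A δ B g n) (Mx e ω A δ n) y := by
  change (if y ∈ B then _ else _) = _
  rw [if_pos hy]

lemma kv_sq_step (n : ℕ) : ∑ y, (kv e ω A δ B g (n + 1) y) ^ 2 +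
    2 * δ * (1 - δ) * (wv e ω A δ B g n) ^ 2 ≤ ∑ y, (kv e ω A δ B g n y) ^ 2 := by
  have h1 : ∑ y, (kv e ω A δ B g (n + 1) y) ^ 2 ≤
      ∑ y, (vecMul (kv e ω A δ B g n) (Mx e ω A δ n) y) ^ 2 := by
    refine Finset.sum_le_sum fun y _ => ?_
    by_cases hy : y ∈ B
    · rw [kv_succ_in e ω A δ B g n y hy]
    · have : kv e ω A δ B g (n + 1) y = 0 := by
        change (if y ∈ B then _ else _) = _
        rw [if_neg hy]
      rw [this, zero_pow two_ne_zero]
      exact sq_nonneg _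
  refine (add_le_add_left h1 _).trans ?_
  simp only [vecMul_Mx]
  unfold wv
  split_ifs with h2 h3
  · rw [sum_swap _ _ (fun y => (kv e ω A δ B g n y) ^ 2)]
    simp
  · simp
  · rw [sq_abs, sq_free]

lemma kv_sq (n : ℕ) : ∑ y, (kv e ω A δ B g n y) ^ 2 +
    2 * δ * (1 - δ) * ∑ k ∈ Finset.range n, (wv e ω A δ B g k) ^ 2 ≤ ∑ y, (g y) ^ 2 := by
  induction n with
  | zero =>
    simp [kv]
  | succ n ih =>
    rw [Finset.sum_range_succ, mul_add]
    have := kv_sq_step e ω A δ B g n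
    linarith

end gen

theorem swd : S_SWD := by
  intro d L _ hd hL σ hσ ω A δ z R g hδ hδ2 hg0 hgB hgA hmove
  obtain ⟨e, he⟩ : ∃ e : ℕ → (Fin d → ZMod L) × (Fin d → ZMod L), e = ed ∘ σ := ⟨_, rfl⟩
  have hek : ∀ k, e k = ed (σ k) := fun k => by rw [he]; rfl
  rw [← he] at hmove ⊢
  simp only [← hek] at hmove
  have hd' : (1 : ℝ) ≤ d := by exact_mod_cast hd
  obtain ⟨M, hM⟩ : ∃ M, M = ms d L := ⟨_, rfl⟩
  rw [← hM] at hmove ⊢
  obtain ⟨B, hB⟩ : ∃ B, B = bal z R := ⟨_, rfl⟩
  rw [← hB] at hgB ⊢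
  have hBR : ∀ y, y ∈ B → y ∈ bal z (R + 1) := by
    intro y hy
    rw [hB] at hy
    unfold bal at hy ⊢
    rw [Finset.mem_filter] at hy ⊢
    exact ⟨hy.1, by omega⟩
  have hadj : ∀ k, (e k).1 ∈ B ∨ (e k).2 ∈ B →
      (e k).1 ∈ bal z (R + 1) ∧ (e k).2 ∈ bal z (R + 1) := by
    intro k hk
    rw [hek] at hk ⊢
    obtain ⟨h1, h2⟩ := td_step hL z (σ k).1 (σ k).2
    rcases hk with hk | hk
    · refine ⟨hBR _ hk, ?_⟩
      rw [hB] at hk
      unfold bal at hk ⊢
      rw [Finset.mem_filter] at hk ⊢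
      refine ⟨Finset.mem_univ _, ?_⟩
      have h3 : td z (ed (σ k)).2 ≤ td z (ed (σ k)).1 + 1 := h1
      omega
    · refine ⟨?_, hBR _ hk⟩
      rw [hB] at hk
      unfold bal at hk ⊢
      rw [Finset.mem_filter] at hk ⊢
      refine ⟨Finset.mem_univ _, ?_⟩
      have h3 : td z (ed (σ k)).1 ≤ td z (ed (σ k)).2 + 1 := h2
      omega
  -- particles near the ball do not move
  have hstay : ∀ j ≤ M, ∀ a ∈ A, (gp e ω j a ∈ bal z (R + 1) ∨ a ∈ bal z (R + 1)) →
      gp e ω j a = a := by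
    intro j
    induction j with
    | zero =>
      intro _ a _ _
      rfl
    | succ j ih =>
      intro hj a ha h
      have h1 : gp e ω (j + 1) a = if ω j then swap (e j).1 (e j).2 (gp e ω j a)
          else gp e ω j a := by
        change (if ω j then swap (e j).1 (e j).2 * gp e ω j else gp e ω j) a = _
        split_ifs <;> rfl
      rw [h1] at h ⊢
      split_ifs at h ⊢ with h2
      · by_cases h3 : gp e ω j a = (e j).1 ∨ gp e ω j a = (e j).2
        · exfalso
          obtain ⟨h4, h5⟩ := hmove j (by omega) h2 ⟨a, ha, h3⟩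
          rcases h with h | h
          · rcases h3 with h3 | h3
            · rw [h3, swap_apply_left] at h
              exact h5 h
            · rw [h3, swap_apply_right] at h
              exact h4 h
          · have h6 := ih (by omega) a ha (Or.inr h)
            rw [h6] at h3
            rcases h3 with h3 | h3
            · rw [← h3] at h4
              exact h4 h
            · rw [← h3] at h5
              exact h5 h
        · rw [not_or] at h3
          rw [swap_apply_of_ne_of_ne h3.1 h3.2] at h ⊢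
          exact ih (by omega) a ha h
      · exact ih (by omega) a ha h
  have hfree : ∀ k < M, (e k).1 ∉ A → (e k).2 ∉ A →
      ((e k).1 ∈ bal z (R + 1) ∧ (e k).2 ∈ bal z (R + 1)) → ¬ tch e ω A k := by
    rintro k hk h1 h2 ⟨h3, h4⟩ ⟨a, ha, h5⟩
    rcases h5 with h5 | h5
    · have h6 := hstay k hk.le a ha (Or.inl (by rw [h5]; exact h3))
      rw [h5] at h6
      rw [h6] at h1
      exact h1 ha
    · have h6 := hstay k hk.le a ha (Or.inl (by rw [h5]; exact h4))
      rw [h5] at h6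
      rw [h6] at h2
      exact h2 ha
  obtain ⟨G, hG⟩ : ∃ G : ℕ → (Fin d → ZMod L) → ℝ, G = kv e ω A δ B g := ⟨_, rfl⟩
  obtain ⟨w, hw⟩ : ∃ w : ℕ → ℝ, w = wv e ω A δ B g := ⟨_, rfl⟩
  have hw0 : ∀ j, 0 ≤ w j := fun j => hw ▸ wv_nonneg e ω A δ B g j
  -- variation
  have hvar1 : ∀ j < M, ∀ y, |G j y - G (j + 1) y| ≤ δ * (inc (e j) y * w j) := by
    intro j hj y
    have hr : 0 ≤ δ * (inc (e j) y * w j) :=
      mul_nonneg hδ.le (mul_nonneg (inc_nonneg _ _) (hw0 j))
    by_cases hy : y ∈ B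
    · rw [hG, kv_succ_in e ω A δ B g j y hy, vecMul_Mx]
      split_ifs with h1 h2
      · obtain ⟨h4, h5⟩ := hmove j hj h2 h1
        have h6 : (e j).1 ≠ y := fun h => h4 (h ▸ hBR y hy)
        have h7 : (e j).2 ≠ y := fun h => h5 (h ▸ hBR y hy)
        rw [swap_apply_of_ne_of_ne h6.symm h7.symm, sub_self, abs_zero]
        exact hr
      · rw [sub_self, abs_zero]
        exact hr
      · have h3 : w j = |G j (e j).1 - G j (e j).2| := by
          rw [hw, hG]
          unfold wv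
          rw [if_neg h1]
        have h4 : kv e ω A δ B g j y - ((1 - δ) * kv e ω A δ B g j y +
            δ * kv e ω A δ B g j (swap (e j).1 (e j).2 y)) =
            δ * (kv e ω A δ B g j y - kv e ω A δ B g j (swap (e j).1 (e j).2 y)) := by ring
        rw [h4, abs_mul, abs_of_pos hδ]
        apply mul_le_mul_of_nonneg_left _ hδ.le
        by_cases h5 : (e j).1 = y
        · rw [← h5, swap_apply_left]
          unfold inc
          rw [if_pos rfl, h3, hG]
          have : (0 : ℝ) ≤ if (e j).2 = (e j).1 then 1 else 0 := by split_ifs <;> norm_num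
          nlinarith [abs_nonneg (kv e ω A δ B g j (e j).1 - kv e ω A δ B g j (e j).2)]
        · by_cases h6 : (e j).2 = y
          · rw [← h6, swap_apply_right]
            unfold inc
            rw [if_pos rfl, h3, hG, abs_sub_comm]
            have : (0 : ℝ) ≤ if (e j).1 = (e j).2 then 1 else 0 := by split_ifs <;> norm_num
            nlinarith [abs_nonneg (kv e ω A δ B g j (e j).1 - kv e ω A δ B g j (e j).2)]
          · rw [swap_apply_of_ne_of_ne (Ne.symm h5) (Ne.symm h6), sub_self, abs_zero]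
            exact mul_nonneg (inc_nonneg _ _) (hw0 j)
    · rw [hG, kv_out e ω A δ B g hgB j y hy, kv_out e ω A δ B g hgB (j + 1) y hy, sub_self,
        abs_zero]
      exact hr
  obtain ⟨S, hS⟩ : ∃ S : (Fin d → ZMod L) → ℝ, ∀ y, S y = ∑ j ∈ Finset.range M, inc (e j) y * w j :=
    ⟨_, fun _ => rfl⟩
  have hvar2 : ∀ n ≤ M, ∀ y, |g y - G n y| ≤ δ * ∑ j ∈ Finset.range n, inc (e j) y * w j := by
    intro n
    induction n with
    | zero =>
      intro _ y
      rw [hG]
      simp [kv]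
    | succ n ih =>
      intro hn y
      have h1 := ih (by omega) y
      have h2 := hvar1 n (by omega) y
      rw [Finset.sum_range_succ, mul_add]
      have h3 : g y - G (n + 1) y = (g y - G n y) + (G n y - G (n + 1) y) := by ring
      rw [h3]
      exact (abs_add_le _ _).trans (add_le_add h1 h2)
  have hvar : ∀ n ≤ M, ∀ y, |g y - G n y| ≤ δ * S y := by
    intro n hn y
    refine (hvar2 n hn y).trans (mul_le_mul_of_nonneg_left ?_ hδ.le)
    rw [hS]
    exact Finset.sum_le_sum_of_subset_of_nonneg (Finset.range_mono hn)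
      fun j _ _ => mul_nonneg (inc_nonneg _ _) (hw0 j)
  obtain ⟨Q, hQ⟩ : ∃ Q : (Fin d → ZMod L) → ℝ, ∀ y,
      Q y = ∑ j ∈ Finset.range M, inc (e j) y * (w j) ^ 2 := ⟨_, fun _ => rfl⟩
  have hdeg : ∀ y, ∑ j ∈ Finset.range M, inc (e j) y = 2 * d := by
    intro y
    rw [hM, he]
    exact sum_deg_sweep hσ y
  have hSQ : ∀ y, (S y) ^ 2 ≤ 2 * d * Q y := by
    intro y
    rw [hS, hQ, ← hdeg y]
    apply Finset.sum_sq_le_sum_mul_sum_of_sq_le_mul
    · intro j _
      exact inc_nonneg _ _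
    · intro j _
      exact mul_nonneg (inc_nonneg _ _) (sq_nonneg _)
    · intro j _
      exact le_of_eq (by ring)
  -- the terms
  have hterm : ∀ k < M, (if (e k).1 ∉ A ∧ (e k).2 ∉ A then (g (e k).1 - g (e k).2) ^ 2 else 0) ≤
      2 * (w k) ^ 2 + 8 * d * δ ^ 2 * (Q (e k).1 + Q (e k).2) := by
    intro k hk
    have hQ0 : ∀ y, 0 ≤ Q y := fun y => by
      rw [hQ]
      exact Finset.sum_nonneg fun j _ => mul_nonneg (inc_nonneg _ _) (sq_nonneg _)
    have hr : 0 ≤ 2 * (w k) ^ 2 + 8 * d * δ ^ 2 * (Q (e k).1 + Q (e k).2) := by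
      have := hQ0 (e k).1
      have := hQ0 (e k).2
      positivity
    split_ifs with h1
    · by_cases h2 : (e k).1 ∈ B ∨ (e k).2 ∈ B
      · have h3 := hfree k hk h1.1 h1.2 (hadj k h2)
        have h4 : w k = |G k (e k).1 - G k (e k).2| := by
          rw [hw, hG]
          unfold wv
          rw [if_neg h3]
        have h5 := hvar k hk.le (e k).1
        have h6 := hvar k hk.le (e k).2
        have h7 : |g (e k).1 - g (e k).2| ≤ w k + (δ * S (e k).1 + δ * S (e k).2) := by
          have h8 : g (e k).1 - g (e k).2 = (G k (e k).1 - G k (e k).2) +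
              ((g (e k).1 - G k (e k).1) - (g (e k).2 - G k (e k).2)) := by ring
          rw [h8, h4]
          refine (abs_add_le _ _).trans (add_le_add le_rfl ?_)
          exact (abs_sub _ _).trans (add_le_add h5 h6)
        have h8 : (g (e k).1 - g (e k).2) ^ 2 ≤ (w k + (δ * S (e k).1 + δ * S (e k).2)) ^ 2 := by
          rw [← sq_abs]
          exact pow_le_pow_left₀ (abs_nonneg _) h7 2
        have h9 := hSQ (e k).1
        have h10 := hSQ (e k).2
        have h11 : (w k + (δ * S (e k).1 + δ * S (e k).2)) ^ 2 ≤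
            2 * (w k) ^ 2 + 4 * δ ^ 2 * ((S (e k).1) ^ 2 + (S (e k).2) ^ 2) := by
          nlinarith [sq_nonneg (w k - (δ * S (e k).1 + δ * S (e k).2)),
            sq_nonneg (δ * S (e k).1 - δ * S (e k).2)]
        have h12 : 4 * δ ^ 2 * ((S (e k).1) ^ 2 + (S (e k).2) ^ 2) ≤
            4 * δ ^ 2 * (2 * d * Q (e k).1 + 2 * d * Q (e k).2) :=
          mul_le_mul_of_nonneg_left (add_le_add h9 h10) (by positivity)
        calc (g (e k).1 - g (e k).2) ^ 2 ≤ _ := h8
          _ ≤ _ := h11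
          _ ≤ 2 * (w k) ^ 2 + 4 * δ ^ 2 * (2 * d * Q (e k).1 + 2 * d * Q (e k).2) := by linarith
          _ = _ := by ring
      · rw [not_or] at h2
        rw [hgB _ h2.1, hgB _ h2.2]
        simpa using hr
    · exact hr
  obtain ⟨W, hW⟩ : ∃ W : ℝ, W = ∑ j ∈ Finset.range M, (w j) ^ 2 := ⟨_, rfl⟩
  have hQsum : ∑ k ∈ Finset.range M, (Q (e k).1 + Q (e k).2) = 4 * d * W := by
    simp only [hQ]
    have h1 : ∀ k, ∑ j ∈ Finset.range M, inc (e j) (e k).1 * w j ^ 2 +
        ∑ j ∈ Finset.range M, inc (e j) (e k).2 * w j ^ 2 =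
        ∑ j ∈ Finset.range M, (inc (e k) (e j).1 + inc (e k) (e j).2) * w j ^ 2 := by
      intro k
      rw [← Finset.sum_add_distrib]
      refine Finset.sum_congr rfl fun j _ => ?_
      rw [← add_mul]
      congr 1
      unfold inc
      simp only [eq_comm (a := (e j).1), eq_comm (a := (e j).2)]
      ring
    simp only [h1]
    rw [Finset.sum_comm]
    have h2 : ∀ j, ∑ k ∈ Finset.range M, (inc (e k) (e j).1 + inc (e k) (e j).2) * w j ^ 2 =
        4 * d * w j ^ 2 := by
      intro j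
      rw [← Finset.sum_mul, Finset.sum_add_distrib, hdeg, hdeg]
      ring
    simp only [h2]
    rw [← Finset.mul_sum, ← hW]
  have hW0 : 0 ≤ W := by
    rw [hW]
    exact Finset.sum_nonneg fun j _ => sq_nonneg _
  have hsum : ∑ i : (Fin d → ZMod L) × Fin d, (if (ed i).1 ∉ A ∧ (ed i).2 ∉ A then
      (g (ed i).1 - g (ed i).2) ^ 2 else 0) ≤ 3 * W := by
    rw [← sum_sweep hσ (fun i => if (ed i).1 ∉ A ∧ (ed i).2 ∉ A then
      (g (ed i).1 - g (ed i).2) ^ 2 else 0), ← hM]
    have h1 : ∑ k ∈ Finset.range M, (if (ed (σ k)).1 ∉ A ∧ (ed (σ k)).2 ∉ A then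
      (g (ed (σ k)).1 - g (ed (σ k)).2) ^ 2 else 0) ≤
      ∑ k ∈ Finset.range M, (2 * (w k) ^ 2 + 8 * d * δ ^ 2 * (Q (e k).1 + Q (e k).2)) := by
      refine Finset.sum_le_sum fun k hk => ?_
      rw [← hek]
      exact hterm k (Finset.mem_range.1 hk)
    refine h1.trans ?_
    rw [Finset.sum_add_distrib, ← Finset.mul_sum, ← Finset.mul_sum, hQsum, ← hW]
    have h2 : (16 * d * δ) ^ 2 ≤ 1 := by
      have : 0 ≤ 16 * d * δ := by positivity
      nlinarith
    have h3 : 8 * d * δ ^ 2 * (4 * d * W) = (16 * d * δ) ^ 2 * W / 8 := by ring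
    rw [h3]
    nlinarith
  have hδ3 : δ ≤ 1 / 16 := by nlinarith
  have hfin := kv_sq e ω A δ B g M
  rw [← hw, ← hW] at hfin
  have h1 : δ / 2 * ∑ i : (Fin d → ZMod L) × Fin d, (if (ed i).1 ∉ A ∧ (ed i).2 ∉ A then
      (g (ed i).1 - g (ed i).2) ^ 2 else 0) ≤ δ / 2 * (3 * W) :=
    mul_le_mul_of_nonneg_left hsum (by positivity)
  have h2 : δ / 2 * (3 * W) ≤ 2 * δ * (1 - δ) * W := by
    have h3 : 0 ≤ δ * W := mul_nonneg hδ.le hW0
    nlinarith
  linarith

end Pool.Agent.Q53.LC
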