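import Mathlib

/-!
# Project LC (helper292), job POI: the abstract Poincare inequality for a grid of blocks
-/

set_option autoImplicit false

namespace Pool.Agent.Q53.LC

open Finset

/-- one dimension -/
lemma line_ineq {M : ℕ} (h : Fin M → ℝ) (s t : Fin M) :
    (h s - h t) ^ 2 ≤ M * ∑ u : Fin M,
      (if hu : (u : ℕ) + 1 < M then (h ⟨u + 1, hu⟩ - h u) ^ 2 else 0) := by
  obtain ⟨D, hD⟩ : ∃ D : ℕ → ℝ, ∀ u, D u = if hu : u + 1 < M then
      h ⟨u + 1, hu⟩ - h ⟨u, by omega⟩ else 0 := ⟨_, fun _ => rfl⟩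
  have key : ∀ s t : Fin M, s ≤ t → (h s - h t) ^ 2 ≤ M * ∑ u ∈ Finset.range M, (D u) ^ 2 := by
    intro s t hst
    have h1 : ∀ n : ℕ, (s : ℕ) ≤ n → ∀ hn : n < M, h ⟨n, hn⟩ - h s =
        ∑ u ∈ Finset.Ico (s : ℕ) n, D u := by
      intro n hsn
      induction n, hsn using Nat.le_induction with
      | base =>
        intro hn
        simp
      | succ n hsn ih =>
        intro hn
        rw [Finset.sum_Ico_succ_top hsn, ← ih (by omega), hD, dif_pos hn]
        ring
    have h2 := h1 t hst t.2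
    have h3 : (h s - h t) ^ 2 = (∑ u ∈ Finset.Ico (s : ℕ) t, D u) ^ 2 := by
      rw [← h2]
      ring
    rw [h3]
    refine (sq_sum_le_card_mul_sum_sq).trans ?_
    apply mul_le_mul
    · rw [Nat.card_Ico]
      have : ((t : ℕ) - s : ℕ) ≤ M := by omega
      exact_mod_cast this
    · apply Finset.sum_le_sum_of_subset_of_nonneg
      · intro u hu
        rw [Finset.mem_Ico] at hu
        rw [Finset.mem_range]
        omega
      · intro u _ _
        exact sq_nonneg _
    · exact Finset.sum_nonneg fun u _ => sq_nonneg _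
    · positivity
  have hsum : ∑ u ∈ Finset.range M, (D u) ^ 2 = ∑ u : Fin M,
      (if hu : (u : ℕ) + 1 < M then (h ⟨u + 1, hu⟩ - h u) ^ 2 else 0) := by
    rw [Finset.sum_range]
    refine Finset.sum_congr rfl fun u _ => ?_
    rw [hD]
    split_ifs
    · rfl
    · norm_num
  rw [← hsum]
  rcases le_total s t with hst | hst
  · exact key s t hst
  · have := key t s hst
    have h2 : (h s - h t) ^ 2 = (h t - h s) ^ 2 := by ring
    rw [h2]
    exact this

section grid

variable {d M : ℕ}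

/-- the squared difference to the next point in direction `i` -/
noncomputable def nb (m : (Fin d → Fin M) → ℝ) (i : Fin d) (γ : Fin d → Fin M) : ℝ :=
  if h : (γ i : ℕ) + 1 < M then (m (Function.update γ i ⟨γ i + 1, h⟩) - m γ) ^ 2 else 0

lemma nb_nonneg (m : (Fin d → Fin M) → ℝ) (i : Fin d) (γ : Fin d → Fin M) : 0 ≤ nb m i γ := by
  unfold nb
  split_ifs
  · exact sq_nonneg _
  · exact le_rfl

lemma line_upd (m : (Fin d → Fin M) → ℝ) (i : Fin d) (γ : Fin d → Fin M) (t : Fin M) :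
    (m γ - m (Function.update γ i t)) ^ 2 ≤ M * ∑ u : Fin M, nb m i (Function.update γ i u) := by
  have h1 := line_ineq (fun s => m (Function.update γ i s)) (γ i) t
  rw [Function.update_eq_self] at h1
  refine h1.trans (le_of_eq ?_)
  congr 1
  refine Finset.sum_congr rfl fun u _ => ?_
  unfold nb
  simp only [Function.update_self, Function.update_idem]

lemma sum_upd (F : (Fin d → Fin M) → ℝ) (i : Fin d) :
    ∑ γ : Fin d → Fin M, ∑ u : Fin M, F (Function.update γ i u) = M * ∑ γ, F γ := by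
  rw [← Fintype.sum_prod_type' (f := fun (γ : Fin d → Fin M) (u : Fin M) =>
    F (Function.update γ i u))]
  have h1 : ∑ p : (Fin d → Fin M) × Fin M, F (Function.update p.1 i p.2) =
      ∑ p : (Fin d → Fin M) × Fin M, F p.1 := by
    apply Fintype.sum_bijective (fun p : (Fin d → Fin M) × Fin M =>
      ((Function.update p.1 i p.2, p.1 i) : (Fin d → Fin M) × Fin M))
    · apply Function.Involutive.bijective
      intro p
      simp
    · intro p
      rfl
  rw [h1, Fintype.sum_prod_type]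
  simp [Finset.mul_sum]

/-- mixing of coordinates -/
def mix (k : ℕ) (α β : Fin d → Fin M) : Fin d → Fin M := fun i => if (i : ℕ) < k then β i else α i

lemma mix_mix (k : ℕ) (α β : Fin d → Fin M) : mix k (mix k α β) (mix k β α) = α := by
  ext i
  unfold mix
  split_ifs <;> rfl

lemma mix_succ (k : Fin d) (α β : Fin d → Fin M) :
    mix ((k : ℕ) + 1) α β = Function.update (mix k α β) k (mix k β α k) := by
  funext i
  unfold mix
  by_cases h : i = k
  · rw [h, Function.update_self, if_pos (by omega), if_neg (by omega)]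
  · rw [Function.update_of_ne h]
    have : (i : ℕ) ≠ k := fun h' => h (Fin.ext h')
    by_cases h2 : (i : ℕ) < k
    · rw [if_pos (by omega), if_pos h2]
    · rw [if_neg (by omega), if_neg h2]

lemma sum_coord (k : Fin d) (H : Fin M → ℝ) :
    ∑ δ : Fin d → Fin M, H (δ k) = (M : ℝ) ^ (d - 1) * ∑ t, H t := by
  rw [← (Equiv.funSplitAt k (Fin M)).symm.sum_comp]
  rw [Fintype.sum_prod_type]
  simp only [Equiv.funSplitAt_symm_apply, dif_pos]
  rw [Finset.mul_sum]
  refine Finset.sum_congr rfl fun t _ => ?_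
  rw [Finset.sum_const, Finset.card_univ]
  have : Fintype.card ({j // j ≠ k} → Fin M) = M ^ (d - 1) := by
    rw [Fintype.card_fun, Fintype.card_fin, Fintype.card_subtype_compl, Fintype.card_fin]
    simp
  rw [this, nsmul_eq_mul]
  push_cast
  rfl

/-- the Poincare inequality on the grid -/
lemma grid_ineq (hd : 1 ≤ d) (m : (Fin d → Fin M) → ℝ) :
    ∑ α : Fin d → Fin M, ∑ β : Fin d → Fin M, (m α - m β) ^ 2 ≤
      d * (M : ℝ) ^ (d + 2) * ∑ i : Fin d, ∑ γ : Fin d → Fin M, nb m i γ := by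
  have h1 : ∀ α β : Fin d → Fin M, (m α - m β) ^ 2 ≤
      d * ∑ k : Fin d, (m (mix k α β) - m (mix ((k : ℕ) + 1) α β)) ^ 2 := by
    intro α β
    have h2 : m α - m β = ∑ k : Fin d, (m (mix k α β) - m (mix ((k : ℕ) + 1) α β)) := by
      rw [← Finset.sum_range (fun k => m (mix k α β) - m (mix (k + 1) α β)),
        Finset.sum_range_sub']
      have e1 : mix 0 α β = α := by
        funext i
        unfold mix
        rw [if_neg (by omega)]
      have e2 : mix d α β = β := by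
        funext i
        unfold mix
        rw [if_pos i.2]
      rw [e1, e2]
    rw [h2]
    refine (sq_sum_le_card_mul_sum_sq).trans (le_of_eq ?_)
    rw [Finset.card_univ, Fintype.card_fin]
  have h2 : ∀ k : Fin d, ∑ α : Fin d → Fin M, ∑ β : Fin d → Fin M,
      (m (mix k α β) - m (mix ((k : ℕ) + 1) α β)) ^ 2 ≤
      (M : ℝ) ^ (d + 2) * ∑ γ : Fin d → Fin M, nb m k γ := by
    intro k
    have e1 : ∑ α : Fin d → Fin M, ∑ β : Fin d → Fin M,
        (m (mix k α β) - m (mix ((k : ℕ) + 1) α β)) ^ 2 =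
        ∑ γ : Fin d → Fin M, ∑ δ : Fin d → Fin M,
        (m γ - m (Function.update γ k (δ k))) ^ 2 := by
      rw [← Fintype.sum_prod_type' (f := fun (α β : Fin d → Fin M) =>
        (m (mix k α β) - m (mix ((k : ℕ) + 1) α β)) ^ 2),
        ← Fintype.sum_prod_type' (f := fun (γ δ : Fin d → Fin M) =>
        (m γ - m (Function.update γ k (δ k))) ^ 2)]
      apply Fintype.sum_bijective (fun p : (Fin d → Fin M) × (Fin d → Fin M) =>
        ((mix k p.1 p.2, mix k p.2 p.1) : (Fin d → Fin M) × (Fin d → Fin M)))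
      · apply Function.Involutive.bijective
        intro p
        simp only [mix_mix]
      · intro p
        simp only [mix_succ]
    rw [e1]
    have e2 : ∀ γ : Fin d → Fin M, ∑ δ : Fin d → Fin M,
        (m γ - m (Function.update γ k (δ k))) ^ 2 ≤
        (M : ℝ) ^ (d - 1) * (M * (M * ∑ u : Fin M, nb m k (Function.update γ k u))) := by
      intro γ
      rw [sum_coord k (fun t => (m γ - m (Function.update γ k t)) ^ 2)]
      apply mul_le_mul_of_nonneg_left _ (by positivity)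
      refine (Finset.sum_le_sum fun t _ => line_upd m k γ t).trans (le_of_eq ?_)
      rw [Finset.sum_const, Finset.card_univ, Fintype.card_fin, nsmul_eq_mul]
    refine (Finset.sum_le_sum fun γ _ => e2 γ).trans (le_of_eq ?_)
    rw [← Finset.mul_sum, ← Finset.mul_sum, ← Finset.mul_sum, sum_upd]
    have e3 : (M : ℝ) ^ (d + 2) = (M : ℝ) ^ (d - 1) * (M * (M * M)) := by
      have : d + 2 = (d - 1) + 3 := by omega
      rw [this, pow_add]
      ring
    rw [e3]
    ring
  calc ∑ α : Fin d → Fin M, ∑ β : Fin d → Fin M, (m α - m β) ^ 2 ≤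
      ∑ α : Fin d → Fin M, ∑ β : Fin d → Fin M,
        d * ∑ k : Fin d, (m (mix k α β) - m (mix ((k : ℕ) + 1) α β)) ^ 2 :=
        Finset.sum_le_sum fun α _ => Finset.sum_le_sum fun β _ => h1 α β
    _ = d * ∑ k : Fin d, ∑ α : Fin d → Fin M, ∑ β : Fin d → Fin M,
        (m (mix k α β) - m (mix ((k : ℕ) + 1) α β)) ^ 2 := by
        simp only [← Finset.mul_sum]
        congr 1
        rw [Finset.sum_comm]
        rw [Finset.sum_comm]
        have : ∀ α : Fin d → Fin M, ∑ β : Fin d → Fin M, ∑ k : Fin d,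
            (m (mix k α β) - m (mix ((k : ℕ) + 1) α β)) ^ 2 =
            ∑ k : Fin d, ∑ β : Fin d → Fin M,
            (m (mix k α β) - m (mix ((k : ℕ) + 1) α β)) ^ 2 := fun α => Finset.sum_comm
        simp only [this]
        exact Finset.sum_comm
    _ ≤ d * ∑ k : Fin d, (M : ℝ) ^ (d + 2) * ∑ γ : Fin d → Fin M, nb m k γ :=
        mul_le_mul_of_nonneg_left (Finset.sum_le_sum fun k _ => h2 k) (Nat.cast_nonneg _)
    _ = _ := by
        rw [← Finset.mul_sum]
        ring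

end grid

/-- the abstract inequality for blocks -/
theorem block_ineq {d M : ℕ} (hd : 1 ≤ d) (hM : 1 ≤ M) {X : Type} [DecidableEq X] (G : Finset X)
    (b : X → Fin d → Fin M) (near : X → X → Prop) [DecidableRel near] (f : X → ℝ) (c : ℝ)
    (hc : 0 < c) (hc1 : ∀ α, c ≤ 2 * (G.filter fun x => b x = α).card)
    (hc2 : ∀ α, ((G.filter fun x => b x = α).card : ℝ) ≤ c)
    (hn1 : ∀ x ∈ G, ∀ y ∈ G, b x = b y → near x y)
    (hn2 : ∀ x ∈ G, ∀ y ∈ G, ∀ i, ∀ h : (b x i : ℕ) + 1 < M,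
      b y = Function.update (b x) i ⟨b x i + 1, h⟩ → near x y) :
    ∑ x ∈ G, ∑ y ∈ G, (f x - f y) ^ 2 ≤ (12 + 12 * d ^ 2) * (M : ℝ) ^ (d + 2) *
      ∑ x ∈ G, ∑ y ∈ G, (if near x y then (f x - f y) ^ 2 else 0) := by
  obtain ⟨Ne, hNe⟩ : ∃ Ne : ℝ, Ne = ∑ x ∈ G, ∑ y ∈ G, (if near x y then (f x - f y) ^ 2 else 0) :=
    ⟨_, rfl⟩
  have hNe0 : 0 ≤ Ne := by
    rw [hNe]
    refine Finset.sum_nonneg fun x _ => Finset.sum_nonneg fun y _ => ?_
    split_ifs
    · exact sq_nonneg _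
    · exact le_rfl
  obtain ⟨Gb, hGb⟩ : ∃ Gb : (Fin d → Fin M) → Finset X, ∀ α, Gb α = G.filter fun x => b x = α :=
    ⟨_, fun _ => rfl⟩
  simp only [← hGb] at hc1 hc2
  have hpos : ∀ α, (0 : ℝ) < (Gb α).card := fun α => by
    have := hc1 α
    linarith
  obtain ⟨m, hm⟩ : ∃ m : (Fin d → Fin M) → ℝ, ∀ α, m α = (∑ x ∈ Gb α, f x) / (Gb α).card :=
    ⟨_, fun _ => rfl⟩
  have hinv : ∀ α, 1 / ((Gb α).card : ℝ) ≤ 2 / c := by
    intro α
    rw [div_le_div_iff₀ (hpos α) hc]
    linarith [hc1 α]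
  -- Jensen
  have hJ1 : ∀ x : X, ∀ α, (f x - m α) ^ 2 ≤ 2 / c * ∑ y ∈ Gb α, (f x - f y) ^ 2 := by
    intro x α
    have h1 : f x - m α = (∑ y ∈ Gb α, (f x - f y)) / (Gb α).card := by
      rw [Finset.sum_sub_distrib, Finset.sum_const, nsmul_eq_mul, hm]
      have := (hpos α).ne'
      field_simp
    have h2 : (∑ y ∈ Gb α, (f x - f y)) ^ 2 ≤ (Gb α).card * ∑ y ∈ Gb α, (f x - f y) ^ 2 :=
      sq_sum_le_card_mul_sum_sq
    have h3 : 0 ≤ ∑ y ∈ Gb α, (f x - f y) ^ 2 := Finset.sum_nonneg fun y _ => sq_nonneg _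
    rw [h1, div_pow]
    calc (∑ y ∈ Gb α, (f x - f y)) ^ 2 / ((Gb α).card : ℝ) ^ 2 ≤
        ((Gb α).card * ∑ y ∈ Gb α, (f x - f y) ^ 2) / ((Gb α).card : ℝ) ^ 2 := by
          apply div_le_div_of_nonneg_right h2 (sq_nonneg _)
      _ = 1 / ((Gb α).card : ℝ) * ∑ y ∈ Gb α, (f x - f y) ^ 2 := by
          have := (hpos α).ne'
          field_simp
      _ ≤ _ := mul_le_mul_of_nonneg_right (hinv α) h3
  have hJ2 : ∀ α β, (m β - m α) ^ 2 ≤ (2 / c) ^ 2 * ∑ x ∈ Gb α, ∑ y ∈ Gb β, (f x - f y) ^ 2 := by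
    intro α β
    have h1 : m β - m α = -((∑ x ∈ Gb α, (f x - m β)) / (Gb α).card) := by
      rw [Finset.sum_sub_distrib, Finset.sum_const, nsmul_eq_mul, hm α]
      have := (hpos α).ne'
      field_simp
      ring
    have h2 : (∑ x ∈ Gb α, (f x - m β)) ^ 2 ≤ (Gb α).card * ∑ x ∈ Gb α, (f x - m β) ^ 2 :=
      sq_sum_le_card_mul_sum_sq
    have h3 : 0 ≤ ∑ x ∈ Gb α, (f x - m β) ^ 2 := Finset.sum_nonneg fun y _ => sq_nonneg _
    rw [h1, neg_sq, div_pow]
    have hc' : 0 ≤ 2 / c := by positivity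
    calc (∑ x ∈ Gb α, (f x - m β)) ^ 2 / ((Gb α).card : ℝ) ^ 2 ≤
        ((Gb α).card * ∑ x ∈ Gb α, (f x - m β) ^ 2) / ((Gb α).card : ℝ) ^ 2 := by
          apply div_le_div_of_nonneg_right h2 (sq_nonneg _)
      _ = 1 / ((Gb α).card : ℝ) * ∑ x ∈ Gb α, (f x - m β) ^ 2 := by
          have := (hpos α).ne'
          field_simp
      _ ≤ 2 / c * ∑ x ∈ Gb α, (f x - m β) ^ 2 := mul_le_mul_of_nonneg_right (hinv α) h3
      _ ≤ 2 / c * ∑ x ∈ Gb α, (2 / c * ∑ y ∈ Gb β, (f x - f y) ^ 2) := by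
          apply mul_le_mul_of_nonneg_left _ hc'
          exact Finset.sum_le_sum fun x _ => hJ1 x β
      _ = _ := by
          rw [← Finset.mul_sum]
          ring
  -- sums over blocks
  have hfib : ∀ F : X → ℝ, ∑ x ∈ G, F x = ∑ α, ∑ x ∈ Gb α, F x := by
    intro F
    simp only [hGb]
    rw [Finset.sum_fiberwise]
  have hcard : (G.card : ℝ) ≤ (M : ℝ) ^ d * c := by
    have h1 := hfib (fun _ => 1)
    simp only [Finset.sum_const, nsmul_eq_mul, mul_one] at h1
    rw [h1]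
    refine (Finset.sum_le_sum fun α _ => hc2 α).trans (le_of_eq ?_)
    rw [Finset.sum_const, Finset.card_univ, Fintype.card_fun, Fintype.card_fin, Fintype.card_fin,
      nsmul_eq_mul]
    push_cast
    rfl
  -- first term
  have hT1 : ∑ x ∈ G, (f x - m (b x)) ^ 2 ≤ 2 / c * Ne := by
    calc ∑ x ∈ G, (f x - m (b x)) ^ 2 ≤ ∑ x ∈ G, 2 / c * ∑ y ∈ Gb (b x), (f x - f y) ^ 2 :=
          Finset.sum_le_sum fun x _ => hJ1 x (b x)
      _ = 2 / c * ∑ x ∈ G, ∑ y ∈ Gb (b x), (f x - f y) ^ 2 := by rw [← Finset.mul_sum]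
      _ ≤ 2 / c * Ne := by
          apply mul_le_mul_of_nonneg_left _ (by positivity)
          rw [hNe]
          refine Finset.sum_le_sum fun x hx => ?_
          rw [hGb, Finset.sum_filter]
          refine Finset.sum_le_sum fun y hy => ?_
          split_ifs with h1 h2 h2
          · exact le_rfl
          · exact absurd (hn1 x hx y hy h1.symm) h2
          · exact sq_nonneg _
          · exact le_rfl
  -- second term
  have hT2 : ∀ i : Fin d, ∑ γ : Fin d → Fin M, nb m i γ ≤ (2 / c) ^ 2 * Ne := by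
    intro i
    have h1 : ∀ γ : Fin d → Fin M, nb m i γ ≤ (2 / c) ^ 2 * ∑ x ∈ Gb γ, ∑ y ∈ G,
        (if near x y then (f x - f y) ^ 2 else 0) := by
      intro γ
      have h0 : 0 ≤ ∑ x ∈ Gb γ, ∑ y ∈ G, (if near x y then (f x - f y) ^ 2 else 0) := by
        refine Finset.sum_nonneg fun x _ => Finset.sum_nonneg fun y _ => ?_
        split_ifs
        · exact sq_nonneg _
        · exact le_rfl
      unfold nb
      split_ifs with h
      · refine (hJ2 γ _).trans ?_
        apply mul_le_mul_of_nonneg_left _ (sq_nonneg _)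
        refine Finset.sum_le_sum fun x hx => ?_
        rw [hGb (Function.update γ i ⟨γ i + 1, h⟩), Finset.sum_filter]
        refine Finset.sum_le_sum fun y hy => ?_
        rw [hGb, Finset.mem_filter] at hx
        obtain ⟨hx1, hx2⟩ := hx
        subst hx2
        split_ifs with h1 h2 h2
        · exact le_rfl
        · exact absurd (hn2 x hx1 y hy i h h1) h2
        · exact sq_nonneg _
        · exact le_rfl
      · exact mul_nonneg (sq_nonneg _) h0
    refine (Finset.sum_le_sum fun γ _ => h1 γ).trans (le_of_eq ?_)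
    rw [← Finset.mul_sum, ← hfib (fun x => ∑ y ∈ G, (if near x y then (f x - f y) ^ 2 else 0)),
      ← hNe]
  have hM1 : (1 : ℝ) ≤ M := by exact_mod_cast hM
  have hMd : (1 : ℝ) ≤ (M : ℝ) ^ 2 := one_le_pow₀ hM1
  have hT3 : ∑ x ∈ G, ∑ y ∈ G, (m (b x) - m (b y)) ^ 2 ≤
      4 * d ^ 2 * (M : ℝ) ^ (d + 2) * Ne := by
    have e1 : ∑ x ∈ G, ∑ y ∈ G, (m (b x) - m (b y)) ^ 2 ≤
        ∑ α : Fin d → Fin M, ∑ β : Fin d → Fin M, c ^ 2 * (m α - m β) ^ 2 := by
      rw [hfib]
      refine Finset.sum_le_sum fun α _ => ?_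
      have e2 : ∀ x ∈ Gb α, ∑ y ∈ G, (m (b x) - m (b y)) ^ 2 ≤
          ∑ β : Fin d → Fin M, c * (m α - m β) ^ 2 := by
        intro x hx
        rw [hGb, Finset.mem_filter] at hx
        rw [hx.2, hfib]
        refine Finset.sum_le_sum fun β _ => ?_
        have e3 : ∑ y ∈ Gb β, (m α - m (b y)) ^ 2 = ∑ y ∈ Gb β, (m α - m β) ^ 2 := by
          refine Finset.sum_congr rfl fun y hy => ?_
          rw [hGb, Finset.mem_filter] at hy
          rw [hy.2]
        rw [e3, Finset.sum_const, nsmul_eq_mul]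
        exact mul_le_mul_of_nonneg_right (hc2 β) (sq_nonneg _)
      refine (Finset.sum_le_sum e2).trans ?_
      rw [Finset.sum_const, nsmul_eq_mul, Finset.mul_sum]
      refine Finset.sum_le_sum fun β _ => ?_
      have e4 : 0 ≤ c * (m α - m β) ^ 2 := mul_nonneg hc.le (sq_nonneg _)
      have e5 := mul_le_mul_of_nonneg_right (hc2 α) e4
      calc ((Gb α).card : ℝ) * (c * (m α - m β) ^ 2) ≤ c * (c * (m α - m β) ^ 2) := e5
        _ = _ := by ring
    refine e1.trans ?_
    simp only [← Finset.mul_sum]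
    have e2 := grid_ineq hd m
    have e3 : ∑ i : Fin d, ∑ γ : Fin d → Fin M, nb m i γ ≤ d * ((2 / c) ^ 2 * Ne) := by
      refine (Finset.sum_le_sum fun i _ => hT2 i).trans (le_of_eq ?_)
      rw [Finset.sum_const, Finset.card_univ, Fintype.card_fin, nsmul_eq_mul]
    calc c ^ 2 * ∑ α : Fin d → Fin M, ∑ β : Fin d → Fin M, (m α - m β) ^ 2 ≤
        c ^ 2 * (d * (M : ℝ) ^ (d + 2) * (d * ((2 / c) ^ 2 * Ne))) := by
          apply mul_le_mul_of_nonneg_left _ (sq_nonneg _)
          exact e2.trans (mul_le_mul_of_nonneg_left e3 (by positivity))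
      _ = _ := by
          field_simp
          ring
  -- assembly
  have h3 : ∀ x y : X, (f x - f y) ^ 2 ≤ 3 * (f x - m (b x)) ^ 2 + 3 * (m (b x) - m (b y)) ^ 2 +
      3 * (f y - m (b y)) ^ 2 := by
    intro x y
    nlinarith [sq_nonneg ((f x - m (b x)) - (m (b x) - m (b y))),
      sq_nonneg ((f x - m (b x)) + (f y - m (b y))),
      sq_nonneg ((m (b x) - m (b y)) + (f y - m (b y)))]
  have h4 : ∑ x ∈ G, ∑ y ∈ G, (f x - f y) ^ 2 ≤
      6 * (G.card * ∑ x ∈ G, (f x - m (b x)) ^ 2) +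
      3 * ∑ x ∈ G, ∑ y ∈ G, (m (b x) - m (b y)) ^ 2 := by
    refine (Finset.sum_le_sum fun x _ => Finset.sum_le_sum fun y _ => h3 x y).trans
      (le_of_eq ?_)
    simp only [Finset.sum_add_distrib, ← Finset.mul_sum, Finset.sum_const, nsmul_eq_mul]
    ring
  refine h4.trans ?_
  have h5 : (G.card : ℝ) * ∑ x ∈ G, (f x - m (b x)) ^ 2 ≤ ((M : ℝ) ^ d * c) * (2 / c * Ne) := by
    apply mul_le_mul hcard hT1
    · exact Finset.sum_nonneg fun x _ => sq_nonneg _
    · positivity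
  have h6 : ((M : ℝ) ^ d * c) * (2 / c * Ne) = 2 * (M : ℝ) ^ d * Ne := by
    field_simp
  have h7 : 2 * (M : ℝ) ^ d * Ne ≤ 2 * (M : ℝ) ^ (d + 2) * Ne := by
    apply mul_le_mul_of_nonneg_right _ hNe0
    rw [pow_add]
    have : (0 : ℝ) ≤ (M : ℝ) ^ d := by positivity
    nlinarith
  rw [← hNe]
  calc 6 * ((G.card : ℝ) * ∑ x ∈ G, (f x - m (b x)) ^ 2) +
      3 * ∑ x ∈ G, ∑ y ∈ G, (m (b x) - m (b y)) ^ 2 ≤
      6 * (2 * (M : ℝ) ^ (d + 2) * Ne) + 3 * (4 * d ^ 2 * (M : ℝ) ^ (d + 2) * Ne) := by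
        rw [h6] at h5
        linarith
    _ = _ := by ring

end Pool.Agent.Q53.LC
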