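import Pool.Agent.Q292.LC.Stm3
import Pool.Agent.Q53.LC.Grid

/-!
# Project LC (helper292), job POI: Poincare inequality in a box off a sparse set
-/

set_option autoImplicit false

namespace Pool.Agent.Q53.LC

open Finset Q292.LC

lemma natAbs_le_of_cast {L : ℕ} [NeZero L] (a : ZMod L) (k : ℤ) (h : (k : ZMod L) = a) :
    a.valMinAbs.natAbs ≤ k.natAbs := by
  apply ZMod.natAbs_min_of_le_div_two L a.valMinAbs k
  · rw [ZMod.coe_valMinAbs, h]
  · exact ZMod.natAbs_valMinAbs_le a

lemma card_seg {L : ℕ} [NeZero L] {r : ℕ} (hr : r ≤ L) (v : ZMod L) :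
    (Finset.univ.filter (fun t : ZMod L => (t - v).val < r)).card = r := by
  have h : (Finset.univ.filter (fun t : ZMod L => (t - v).val < r)).card =
      (Finset.range r).card := by
    refine Finset.card_nbij' (fun t => (t - v).val) (fun k => v + (k : ZMod L)) ?_ ?_ ?_ ?_
    · intro t ht
      simpa using ht
    · intro k hk
      have hk' : k < r := by simpa using hk
      simp only [Finset.coe_filter, Finset.mem_univ, true_and, Set.mem_ofPred_eq]
      rw [add_sub_cancel_left, ZMod.val_natCast_of_lt (by omega)]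
      exact hk'
    · intro t _
      simp
    · intro k hk
      have hk' : k < r := by simpa using hk
      simp only
      rw [add_sub_cancel_left, ZMod.val_natCast_of_lt (by omega)]
  rw [h, Finset.card_range]

lemma card_box {d L : ℕ} [NeZero L] {r : ℕ} (hr : r ≤ L) (v : Fin d → ZMod L) :
    (box v r).card = r ^ d := by
  have h : box v r = Fintype.piFinset
      (fun i => Finset.univ.filter (fun t : ZMod L => (t - v i).val < r)) := by
    ext x
    unfold Q292.LC.box
    simp
  rw [h, Fintype.card_piFinset]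
  simp only [card_seg hr]
  simp

lemma block_dist {r X Y a : ℕ} (hr : 1 ≤ r) (hX : X / r = a) (hY : Y / r = a ∨ Y / r = a + 1) :
    ((X : ℤ) - Y).natAbs ≤ 2 * r := by
  have h1 := Nat.div_add_mod X r
  have h2 := Nat.div_add_mod Y r
  have h3 := Nat.mod_lt X hr
  have h4 := Nat.mod_lt Y hr
  rw [hX] at h1
  rcases hY with hY | hY
  · rw [hY] at h2
    omega
  · rw [hY, Nat.mul_add, mul_one] at h2
    omega

theorem poi : S_POI := by
  classical
  intro d hd
  have hd0 : (0 : ℝ) ≤ (d : ℝ) ^ 2 := sq_nonneg _
  refine ⟨12 + 12 * d ^ 2, by linarith, ?_⟩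
  intro L _ r M hr hM hMr z Dm hDm f
  have hM0 : 0 < M := hM
  obtain ⟨b, hb⟩ : ∃ b : (Fin d → ZMod L) → Fin d → Fin M, ∀ x i,
      ((b x i : Fin M) : ℕ) = (x i - z i).val / r % M :=
    ⟨fun x i => ⟨(x i - z i).val / r % M, Nat.mod_lt _ hM0⟩, fun _ _ => rfl⟩
  have hbx : ∀ x ∈ box z (M * r), ∀ i, ((b x i : Fin M) : ℕ) = (x i - z i).val / r := by
    intro x hx i
    rw [hb]
    unfold Q292.LC.box at hx
    rw [Finset.mem_filter] at hx
    exact Nat.mod_eq_of_lt (Nat.div_lt_of_lt_mul (by rw [mul_comm]; exact hx.2 i))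
  obtain ⟨v, hv⟩ : ∃ v : (Fin d → Fin M) → (Fin d → ZMod L), ∀ α i,
      v α i = z i + (((α i : ℕ) * r : ℕ) : ZMod L) := ⟨fun α i => _, fun _ _ => rfl⟩
  have hαr : ∀ (α : Fin d → Fin M) i, (α i : ℕ) * r + r ≤ L := by
    intro α i
    have h1 : (α i : ℕ) + 1 ≤ M := (α i).2
    have h2 : ((α i : ℕ) + 1) * r ≤ M * r := Nat.mul_le_mul_right r h1
    rw [Nat.succ_mul] at h2
    omega
  have hfil : ∀ α : Fin d → Fin M,
      ((box z (M * r) \ Dm).filter fun x => b x = α) = box (v α) r \ Dm := by
    intro α
    have h0 : ∀ x, (x ∈ box z (M * r) ∧ b x = α) ↔ x ∈ box (v α) r := by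
      intro x
      constructor
      · rintro ⟨hx, hα⟩
        unfold Q292.LC.box
        rw [Finset.mem_filter]
        refine ⟨Finset.mem_univ _, fun i => ?_⟩
        have h1 := hbx x hx i
        rw [hα] at h1
        have h2 := Nat.div_add_mod (x i - z i).val r
        have h3 := Nat.mod_lt (x i - z i).val hr
        rw [← h1, mul_comm] at h2
        have h4 : x i - v α i = (x i - z i) - (((α i : ℕ) * r : ℕ) : ZMod L) := by
          rw [hv]
          ring
        have h5 : (((α i : ℕ) * r : ℕ) : ZMod L).val = (α i : ℕ) * r :=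
          ZMod.val_natCast_of_lt (by have := hαr α i; omega)
        rw [h4, ZMod.val_sub (by rw [h5]; omega), h5]
        omega
      · intro hx
        unfold Q292.LC.box at hx
        rw [Finset.mem_filter] at hx
        have h1 : ∀ i, (x i - z i).val = (α i : ℕ) * r + (x i - v α i).val := by
          intro i
          have h2 := hx.2 i
          have h3 : x i - z i = (((α i : ℕ) * r + (x i - v α i).val : ℕ) : ZMod L) := by
            push_cast
            rw [ZMod.natCast_zmod_val, hv]
            push_cast
            ring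
          have h4 := hαr α i
          conv_lhs => rw [h3]
          rw [ZMod.val_natCast_of_lt (by omega)]
        have h5 : x ∈ box z (M * r) := by
          unfold Q292.LC.box
          rw [Finset.mem_filter]
          refine ⟨Finset.mem_univ _, fun i => ?_⟩
          have h6 : (α i : ℕ) + 1 ≤ M := (α i).2
          have h7 : ((α i : ℕ) + 1) * r ≤ M * r := Nat.mul_le_mul_right r h6
          rw [Nat.succ_mul] at h7
          have h8 := hx.2 i
          rw [h1]
          omega
        refine ⟨h5, ?_⟩
        funext i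
        apply Fin.ext
        rw [hbx x h5 i, h1, mul_comm, Nat.mul_add_div (by omega), Nat.div_eq_of_lt (hx.2 i), add_zero]
    ext x
    rw [Finset.mem_filter, Finset.mem_sdiff, Finset.mem_sdiff, ← h0 x]
    tauto
  have hrL : r ≤ L := le_trans (Nat.le_mul_of_pos_left r hM0) hMr
  have hcard : ∀ α : Fin d → Fin M, r ^ d ≤
      2 * ((box z (M * r) \ Dm).filter fun x => b x = α).card ∧
      ((box z (M * r) \ Dm).filter fun x => b x = α).card ≤ r ^ d := by
    intro α
    rw [hfil]
    have h1 := Finset.card_sdiff_add_card_inter (box (v α) r) Dm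
    rw [card_box hrL] at h1
    have h2 := hDm (v α)
    rw [Finset.inter_comm] at h2
    omega
  have hrepr : ∀ x y : Fin d → ZMod L, ∀ i, (x i - y i).valMinAbs.natAbs ≤
      (((x i - z i).val : ℤ) - (y i - z i).val).natAbs := by
    intro x y i
    apply natAbs_le_of_cast
    push_cast
    rw [ZMod.natCast_zmod_val, ZMod.natCast_zmod_val]
    ring
  have htd : ∀ x y : Fin d → ZMod L, (∀ i, (x i - y i).valMinAbs.natAbs ≤ 2 * r) →
      td x y ≤ 2 * d * r := by
    intro x y h
    unfold td
    refine (Finset.sum_le_sum fun i _ => h i).trans (le_of_eq ?_)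
    rw [Finset.sum_const, Finset.card_univ, Fintype.card_fin, smul_eq_mul]
    ring
  refine block_ineq hd hM (box z (M * r) \ Dm) b (fun x y => td x y ≤ 2 * d * r) f
    ((r : ℝ) ^ d) (by positivity) (fun α => ?_) (fun α => ?_) (fun x hx y hy h => ?_)
    (fun x hx y hy i h hxy => ?_)
  · have := (hcard α).1
    exact_mod_cast this
  · have := (hcard α).2
    exact_mod_cast this
  · rw [Finset.mem_sdiff] at hx hy
    apply htd
    intro i
    refine (hrepr x y i).trans (block_dist hr (hbx x hx.1 i).symm (Or.inl ?_))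
    rw [← hbx y hy.1 i, h]
  · rw [Finset.mem_sdiff] at hx hy
    apply htd
    intro j
    refine (hrepr x y j).trans (block_dist hr (hbx x hx.1 j).symm ?_)
    rw [← hbx y hy.1 j, hxy]
    by_cases hj : j = i
    · subst hj
      right
      rw [Function.update_self]
    · left
      rw [Function.update_of_ne hj]

end Pool.Agent.Q53.LC
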