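import Pool.Agent.Q292.LC.Stm3

/-!
# Project LC (helper292): tools for the jobs SWD and KIL
-/

set_option autoImplicit false

namespace Pool.Agent.Q53.LC

open Finset Equiv Matrix Q292.LC

section gen

variable {V : Type} [DecidableEq V] [Fintype V]

lemma vecMul_pm (g : V → ℝ) (s : Perm V) (y : V) : vecMul g (pm s) y = g (s.symm y) := by
  have h : vecMul g (pm s) y = ∑ x, g x * (if s x = y then (1 : ℝ) else 0) := rfl
  rw [h, Finset.sum_eq_single (s.symm y)]
  · rw [Equiv.apply_symm_apply, if_pos rfl, mul_one]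
  · intro x _ hx
    rw [if_neg, mul_zero]
    intro h1
    exact hx (by rw [← h1, Equiv.symm_apply_apply])
  · intro h1
    exact absurd (Finset.mem_univ _) h1

lemma vecMul_Mx (e : ℕ → V × V) (ω : ℕ → Bool) (A : Finset V) (δ : ℝ) (k : ℕ) (g : V → ℝ) (y : V) :
    vecMul g (Mx e ω A δ k) y = if tch e ω A k then
      (if ω k then g (swap (e k).1 (e k).2 y) else g y) else
      (1 - δ) * g y + δ * g (swap (e k).1 (e k).2 y) := by
  unfold Mx
  split_ifs with h1 h2
  · rw [vecMul_pm, symm_swap]
  · rw [vecMul_one]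
  · unfold fr
    rw [Matrix.vecMul_add, Matrix.vecMul_smul, Matrix.vecMul_smul, Matrix.vecMul_one]
    simp only [Pi.add_apply, Pi.smul_apply, smul_eq_mul]
    rw [vecMul_pm, symm_swap]

lemma sum_swap (a b : V) (F : V → ℝ) : ∑ y, F (swap a b y) = ∑ y, F y :=
  Equiv.sum_comp (swap a b) F

lemma sum_Mx (e : ℕ → V × V) (ω : ℕ → Bool) (A : Finset V) (δ : ℝ) (k : ℕ) (g : V → ℝ) :
    ∑ y, vecMul g (Mx e ω A δ k) y = ∑ y, g y := by
  simp only [vecMul_Mx]
  split_ifs with h1 h2
  · exact sum_swap _ _ g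
  · rfl
  · rw [Finset.sum_add_distrib, ← Finset.mul_sum, ← Finset.mul_sum, sum_swap _ _ g]
    ring

/-- the weight of a step at a point -/
def inc (p : V × V) (y : V) : ℝ := (if p.1 = y then 1 else 0) + (if p.2 = y then 1 else 0)

lemma inc_nonneg (p : V × V) (y : V) : 0 ≤ inc p y := by
  unfold inc
  split_ifs <;> norm_num

end gen

section torus

variable {d L : ℕ} [NeZero L]

/-- sum over a sweep is the sum over the edges -/
lemma sum_sweep {σ : ℕ → (Fin d → ZMod L) × Fin d} (hσ : Per σ)
    (F : (Fin d → ZMod L) × Fin d → ℝ) :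
    ∑ k ∈ Finset.range (ms d L), F (σ k) = ∑ i, F i := by
  refine Finset.sum_bij (fun k _ => σ k) (fun _ _ => Finset.mem_univ _) ?_ ?_ (fun _ _ => rfl)
  · intro a ha b hb h
    exact hσ.2.injOn (by simpa using ha) (by simpa using hb) h
  · intro i _
    obtain ⟨k, hk, h⟩ := hσ.2.surjOn (Set.mem_univ i)
    exact ⟨k, by simpa using hk, h⟩

lemma sum_step_inv (c : Fin d) (y : Fin d → ZMod L) :
    ∑ x : Fin d → ZMod L, (if Function.update x c (x c + 1) = y then (1 : ℝ) else 0) = 1 := by
  rw [Finset.sum_eq_single (Function.update y c (y c - 1))]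
  · rw [if_pos]
    ext i
    by_cases h : i = c
    · subst h
      simp
    · simp [Function.update_of_ne h]
  · intro x _ hx
    rw [if_neg]
    intro h1
    apply hx
    rw [← h1]
    ext i
    by_cases h : i = c
    · subst h
      simp
    · simp [Function.update_of_ne h]
  · intro h1
    exact absurd (Finset.mem_univ _) h1

/-- every point is on `2 d` edges -/
lemma sum_deg (y : Fin d → ZMod L) : ∑ i : (Fin d → ZMod L) × Fin d, inc (ed i) y = 2 * d := by
  have h1 : ∀ c : Fin d, ∑ x : Fin d → ZMod L, inc (ed (x, c)) y = 2 := by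
    intro c
    unfold inc ed
    rw [Finset.sum_add_distrib]
    simp only
    rw [sum_step_inv c y, Finset.sum_ite_eq' Finset.univ y]
    simp
    norm_num
  rw [Fintype.sum_prod_type_right]
  simp only [h1]
  simp
  ring

lemma sum_deg_sweep {σ : ℕ → (Fin d → ZMod L) × Fin d} (hσ : Per σ) (y : Fin d → ZMod L) :
    ∑ k ∈ Finset.range (ms d L), inc (ed (σ k)) y = 2 * d := by
  rw [sum_sweep hσ (fun i => inc (ed i) y), sum_deg]

lemma td_step (hL : 3 ≤ L) (z x : Fin d → ZMod L) (c : Fin d) :
    td z (Function.update x c (x c + 1)) ≤ td z x + 1 ∧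
    td z x ≤ td z (Function.update x c (x c + 1)) + 1 := by
  have h1 : ∀ y : Fin d → ZMod L, td z y = (z c - y c).valMinAbs.natAbs +
      ∑ i ∈ Finset.univ.erase c, (z i - y i).valMinAbs.natAbs := by
    intro y
    unfold td
    rw [Finset.add_sum_erase _ (fun i => (z i - y i).valMinAbs.natAbs) (Finset.mem_univ c)]
  have h2 : ∑ i ∈ Finset.univ.erase c,
      (z i - (Function.update x c (x c + 1)) i).valMinAbs.natAbs =
      ∑ i ∈ Finset.univ.erase c, (z i - x i).valMinAbs.natAbs := by
    refine Finset.sum_congr rfl fun i hi => ?_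
    rw [Function.update_of_ne (Finset.ne_of_mem_erase hi)]
  have h3 : (1 : ZMod L).valMinAbs.natAbs = 1 := by
    have := ZMod.valMinAbs_natCast_of_le_half (n := L) (a := 1) (by omega)
    rw [Nat.cast_one] at this
    rw [this]
    rfl
  have h4 : (-1 : ZMod L).valMinAbs.natAbs = 1 := by
    rw [ZMod.natAbs_valMinAbs_neg, h3]
  have h5 : ∀ a b : ZMod L, (a + b).valMinAbs.natAbs ≤ a.valMinAbs.natAbs + b.valMinAbs.natAbs :=
    fun a b => (ZMod.natAbs_valMinAbs_add_le a b).trans (Int.natAbs_add_le _ _)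
  rw [h1, h1 x, h2, Function.update_self]
  constructor
  · have h6 := h5 (z c - x c) (-1)
    rw [h4] at h6
    have h7 : z c - (x c + 1) = z c - x c + -1 := by ring
    rw [h7]
    omega
  · have h6 := h5 (z c - (x c + 1)) 1
    rw [h3] at h6
    have h7 : z c - x c = z c - (x c + 1) + 1 := by ring
    rw [h7]
    omega

lemma td_self (z : Fin d → ZMod L) : td z z = 0 := by
  unfold td
  simp

end torus

end Pool.Agent.Q53.LC
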